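import Pool.Agent.Helper2_Pak.Stmts
import Pool.Agent.Helper2_Pack.S2

/-!
# PAK1 module F6: consequences of disjoint interiors
-/

namespace Pool.Agent.Helper2_Pak.H79

open Pool.Agent.Helper2_Pak
open Pool.Agent.Helper2_Pack (Motion)

theorem tile_eq (t : ℝ) (g : Motion) : tile t g = g.homeo '' shape t := rfl

theorem tile_subset (h : S1Stmt) {t : ℝ} (g : Motion) (h0 : 0 < t) (h1 : t ≤ 1 / 2 ^ 60) :
    tile t g ⊆ closure (interior (tile t g)) := by
  rw [tile_eq, ← g.homeo.image_interior, ← g.homeo.image_closure]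
  exact Set.image_mono (h t h0 h1).2.1

theorem f6 (h : S1Stmt) : F6Stmt := by
  intro t g g' h0 h1 hd z hz hz'
  have h2 := tile_subset h g h0 h1 hz
  obtain ⟨w, hw, hw'⟩ := mem_closure_iff.1 h2 _ isOpen_interior hz'
  exact Set.disjoint_left.1 hd hw' hw

end Pool.Agent.Helper2_Pak.H79
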