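import Pool.Agent.Helper2_Pak.Stmts

/-!
# PAK1 module G5: the walls
-/

namespace Pool.Agent.Helper2_Pak.H79

open Pool.Agent.Helper2_Pak

theorem dent_le {t : ℝ} (h0 : 0 < t) (e : ℝ) : dent t e ≤ 2 * t ^ 3 := by
  unfold dent
  have h1 : 0 < t ^ 3 := by positivity
  refine max_le (by positivity) ?_
  have h2 : 0 ≤ |e| := abs_nonneg e
  nlinarith

theorem bump_nonneg (t e : ℝ) : 0 ≤ bump t e := le_max_left _ _

theorem trap_le (t y : ℝ) : trap t y ≤ 1 := min_le_left _ _

theorem trap_mem {t y : ℝ} (h0 : 0 < t) (h : 0 ≤ trap t y) : 0 < y ∧ y < 1 := by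
  unfold trap at h
  rw [le_min_iff, le_min_iff] at h
  obtain ⟨-, h1, h2⟩ := h
  have h3 : 1 ≤ 4 * y / t := by linarith
  have h4 : 1 ≤ 4 * (1 - y) / t := by linarith
  rw [le_div_iff₀ h0] at h3 h4
  constructor <;> linarith

theorem ramp_nonneg {t x : ℝ} (h0 : 0 < t) (hx : 0 ≤ x) (hx' : x ≤ 1) : 0 ≤ ramp t x := by
  unfold ramp
  refine le_min zero_le_one (le_min ?_ ?_)
  · positivity
  · have : 0 ≤ 1 - x := by linarith
    positivity

theorem ramp_le (t x : ℝ) : ramp t x ≤ 1 := min_le_left _ _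

section

variable {t : ℝ} {G : Lay}

theorem ceil_lt (hg : G1Stmt) (hG : G.OK) (hs : Small t G) {c : ℕ} (hc : c < G.M) {x : ℝ}
    (hx : 0 ≤ x) (hx' : x ≤ 1) (hL : (G.kd c).isL = true → x < 1 / 4 + 1 / 64)
    (hR : (G.kd c).isR = true → 3 / 4 - 1 / 64 < x) :
    G.locCe t c x < G.top c + 1 / 4 := by
  have h0 := hs.pos
  obtain ⟨ht, -, -, -, hce, -⟩ := hg t G hG hs
  have ht1 : t ≤ 1 / 1000 := ht.trans (by norm_num)
  have p3 : t ^ 3 ≤ t := by
    have := pow_le_pow_of_le_one h0.le (by linarith : t ≤ 1) (show 1 ≤ 3 by norm_num)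
    simpa using this
  have p4 : t ^ 4 ≤ t := by
    have := pow_le_pow_of_le_one h0.le (by linarith : t ≤ 1) (show 1 ≤ 4 by norm_num)
    simpa using this
  have q4 : 0 < t ^ 4 := by positivity
  have r0 := ramp_nonneg h0 hx hx'
  have r1 := ramp_le t x
  have hN : (G.N : ℝ) ≤ G.top c := by
    exact_mod_cast (show G.N ≤ G.top c by unfold Lay.top; omega)
  have e1 : (1 / 4 + 1 / 64 : ℝ) < eL (G.kd c).sig - t / 4 ∧
      eL (G.kd c).sig + t / 4 < 3 / 4 - 1 / 64 := by
    unfold eL
    split <;> constructor <;> norm_num <;> linarith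
  unfold Lay.locCe
  split_ifs with a1 a2 a3 a4 a5 a6
  · have b1 := dent_le h0 (x - 1 / 4)
    have b2 : t ^ 4 * ramp t x ≤ t ^ 4 * 1 := mul_le_mul_of_nonneg_left r1 q4.le
    linarith
  · exact absurd (lt_trans (hL a1) e1.1) a2
  · have b1 := hR a3
    linarith [e1.2]
  · have b1 := dent_le h0 (x - 3 / 4)
    have b2 : t ^ 4 * ramp t x ≤ t ^ 4 * 1 := mul_le_mul_of_nonneg_left r1 q4.le
    linarith
  all_goals
    have b3 : (G.ce t c - G.top c) * ramp t x ≤ t / 64 := by
      have c1 := (hce c hc).2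
      calc (G.ce t c - G.top c) * ramp t x ≤ |G.ce t c - G.top c| * ramp t x :=
            mul_le_mul_of_nonneg_right (le_abs_self _) r0
        _ ≤ (t / 64) * 1 := mul_le_mul c1 r1 r0 (by positivity)
        _ = t / 64 := mul_one _
    have b4 := bump_nonneg t (x - 1 / 4)
    have b5 := bump_nonneg t (x - 3 / 4)
    have b6 := dent_le h0 (x - 1 / 4)
    have b7 := dent_le h0 (x - 3 / 4)
    linarith

theorem pres_iff (G : Lay) (c r : ℕ) : G.pres c r = true ↔ c < G.M ∧ r < G.top c := by
  unfold Lay.pres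
  simp

theorem isL_iff (k : Kind) (h : k.isL = true) : ∃ σ, k = .pL σ := by
  cases k with
  | pL σ => exact ⟨σ, rfl⟩
  | _ => exact absurd h (by simp [Kind.isL])

theorem isR_iff (k : Kind) (h : k.isR = true) : ∃ σ, k = .pR σ := by
  cases k with
  | pR σ => exact ⟨σ, rfl⟩
  | _ => exact absurd h (by simp [Kind.isR])

theorem nat_eq_of_abs {a b : ℕ} {e x : ℝ} (h1 : |x - a| ≤ e) (h2 : |x - b| ≤ e) (he : e < 1 / 2) :
    a = b := by
  rw [abs_le] at h1 h2
  have h3 : (a : ℝ) < b + 1 := by linarith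
  have h4 : (b : ℝ) < a + 1 := by linarith
  have h5 : a < b + 1 := by exact_mod_cast h3
  have h6 : b < a + 1 := by exact_mod_cast h4
  omega

/-- a point of the recesses -/
theorem recess_pt (hg : G1Stmt) (hG : G.OK) (hs : Small t G) {X r : ℕ} {z : ℂ}
    (hz : z ∈ G.recess t) (h1 : |z.re - X| ≤ 1 / 4) (h2 : |z.im - (r + 1 / 2)| ≤ 1 / 4) :
    r % 2 = 1 ∧ ((G.wallL X r = true ∧ X - t ^ 3 ≤ z.re ∧ z.re ≤ X) ∨
      (G.wallR X r = true ∧ X ≤ z.re ∧ z.re ≤ X + G.rw t X r)) := by
  obtain ⟨X', r', hr, htr, h⟩ := hz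
  have h0 := hs.pos
  obtain ⟨ht, -, -, hD, -, -⟩ := hg t G hG hs
  have ht1 : t ≤ 1 / 1000 := ht.trans (by norm_num)
  have p3 : t ^ 3 ≤ t := by
    have := pow_le_pow_of_le_one h0.le (by linarith : t ≤ 1) (show 1 ≤ 3 by norm_num)
    simpa using this
  have q3 : 0 < t ^ 3 := by positivity
  have ht2 := trap_le t (z.im - r')
  have ht3 := trap_mem h0 htr
  have hr' : r' = r := by
    rw [abs_le] at h2
    have h3 : (r' : ℝ) < r + 1 := by linarith [ht3.1]
    have h4 : (r : ℝ) < r' + 1 := by linarith [ht3.2]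
    have h5 : r' < r + 1 := by exact_mod_cast h3
    have h6 : r < r' + 1 := by exact_mod_cast h4
    omega
  subst hr'
  have hrw := (hD X' r').2.2
  rcases h with ⟨hw, h3, h4⟩ | ⟨hw, h3, h4⟩
  · have h5 : t ^ 3 * trap t (z.im - r') ≤ t ^ 3 * 1 := mul_le_mul_of_nonneg_left ht2 q3.le
    have h6 : X' = X := by
      refine nat_eq_of_abs (e := 1 / 4) (x := z.re) ?_ h1 (by norm_num)
      rw [abs_le]
      constructor <;> linarith
    subst h6
    exact ⟨hr, Or.inl ⟨hw, by linarith, h4⟩⟩
  · have h5 : G.rw t X' r' * trap t (z.im - r') ≤ G.rw t X' r' * 1 :=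
      mul_le_mul_of_nonneg_left ht2 hrw.2.le
    have h6 : X' = X := by
      refine nat_eq_of_abs (e := 1 / 4) (x := z.re) ?_ h1 (by norm_num)
      rw [abs_le]
      constructor <;> linarith [hrw.1]
    subst h6
    exact ⟨hr, Or.inr ⟨hw, h3, by linarith⟩⟩

theorem g5 (hg : G1Stmt) : G5Stmt := by
  intro t G X r hG hs z hz h1 h2
  have h0 := hs.pos
  have q3 : 0 < t ^ 3 := by positivity
  obtain ⟨-, -, -, hD, -, -⟩ := hg t G hG hs
  have hrw := (hD X r).2.2.2
  have e1 : (0 : ℝ) ≤ if r % 2 = 1 then t ^ 3 else 0 := by split_ifs <;> linarith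
  have e2 : (0 : ℝ) ≤ if r % 2 = 1 then G.rw t X r else 0 := by split_ifs <;> linarith
  have h1' := abs_le.1 h1
  have h2' := abs_le.1 h2
  constructor
  · intro hw
    by_contra hcon
    push Not at hcon
    unfold Lay.wallL at hw
    rw [Bool.and_eq_true, Bool.or_eq_true, decide_eq_true_eq, Bool.not_eq_true', pres_iff] at hw
    rcases hz with hz | hz
    · obtain ⟨c, hc⟩ := Set.mem_iUnion.1 hz
      obtain ⟨c1, c2, c3, c4⟩ := hc
      have hc' := c.2
      generalize (c : ℕ) = c at c1 c2 c3 c4 hc'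
      have a1 : (c : ℝ) < X := by linarith
      have a2 : (X : ℝ) < c + 2 := by linarith
      have a1' : c < X := by exact_mod_cast a1
      have a2' : X < c + 2 := by exact_mod_cast a2
      have hX : X = c + 1 := by omega
      subst hX
      have a3 : ¬ (c < G.M ∧ r < G.top c) := by
        rcases hw.2 with h | h
        · omega
        · rw [← pres_iff]
          simp only [Nat.add_sub_cancel] at h
          rw [h]
          simp
      have a4 : G.top c ≤ r := by
        by_contra h
        exact a3 ⟨hc', by omega⟩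
      have a4' : (G.top c : ℝ) ≤ r := by exact_mod_cast a4
      push_cast at h1' hcon a1 a2
      have a5 := ceil_lt hg hG hs hc' (x := z.re - c) (by linarith) (by linarith)
        (fun hL => by
          exfalso
          obtain ⟨σ, hσ⟩ := isL_iff _ hL
          have b1 := (hG.portL c σ hc' hσ).2
          have b2 : G.top (c + 1) = G.N := by
            unfold Lay.top
            rw [b1]
            rfl
          have b3 : G.top c = G.N := by
            unfold Lay.top
            rw [hσ]
            rfl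
          have := hw.1.2
          omega)
        (fun _ => by linarith)
      linarith
    · obtain ⟨hr, h⟩ := recess_pt hg hG hs hz h1 h2
      rw [if_pos hr] at hcon
      rcases h with ⟨-, h3, -⟩ | ⟨-, h3, -⟩ <;> linarith
  · intro hw
    by_contra hcon
    push Not at hcon
    unfold Lay.wallR at hw
    rw [Bool.and_eq_true, Bool.and_eq_true, decide_eq_true_eq, Bool.not_eq_true', pres_iff] at hw
    rcases hz with hz | hz
    · obtain ⟨c, hc⟩ := Set.mem_iUnion.1 hz
      obtain ⟨c1, c2, c3, c4⟩ := hc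
      have hc' := c.2
      generalize (c : ℕ) = c at c1 c2 c3 c4 hc'
      have a1 : (c : ℝ) < X + 1 := by linarith
      have a2 : (X : ℝ) < c + 1 := by linarith
      have a1' : c < X + 1 := by exact_mod_cast a1
      have a2' : X < c + 1 := by exact_mod_cast a2
      have hX : X = c := by omega
      subst hX
      have a3 : ¬ (X < G.M ∧ r < G.top X) := by
        rw [← pres_iff, hw.2]
        simp
      have a4 : G.top X ≤ r := by
        by_contra h
        exact a3 ⟨hc', by omega⟩
      have a4' : (G.top X : ℝ) ≤ r := by exact_mod_cast a4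
      have a5 := ceil_lt hg hG hs hc' (x := z.re - X) (by linarith) (by linarith)
        (fun _ => by linarith)
        (fun hR => by
          exfalso
          obtain ⟨σ, hσ⟩ := isR_iff _ hR
          have b1 := (hG.portR X σ hc' hσ).2.1
          have b2 : G.top (X - 1) = G.N := by
            unfold Lay.top
            rw [b1]
            rfl
          have b3 : G.top X = G.N := by
            unfold Lay.top
            rw [hσ]
            rfl
          have := hw.1.2.2
          omega)
      linarith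
    · obtain ⟨hr, h⟩ := recess_pt hg hG hs hz h1 h2
      rw [if_pos hr] at hcon
      rcases h with ⟨-, -, h3⟩ | ⟨-, -, h3⟩ <;> linarith

end

end Pool.Agent.Helper2_Pak.H79
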